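import Pool.Agent.U755.FN.Cnt
import Pool.Agent.Results.MP_7f9919_an.NormsBHCalkin

/-!
# The numbers of C*-norms for the three pairs

The pairs (a) and (c) are the theorem of the starting library in `NormsBHCalkin.lean`. The new part
is pair (b), the full C*-algebra `C*(F)` of the free group `F` on countably many generators: there
are exactly `2 ^ ℵ₀` C*-norms on the algebraic tensor product `C*(F) ⊗ C*(F)`.

Upper bound: every C*-norm satisfies `N (a ⊗ b) ≤ 4 ‖a‖ ‖b‖`, because an element of a unital
C*-algebra is a combination of four unitaries with small coefficients, and `C*(F)` is separable; so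
a C*-norm is determined by its values on a countable set.

Lower bound: let `G` be a countable group which is not hyperlinear (the library has one, the
elementary group of a Leavitt algebra). Half of the generators of `F` are mapped onto `G`, the
others to `1`. For every sign sequence `s` the left regular representation of `G`, multiplied with
a character of `F` given by `s` on the other generators, and the right regular representation of
`G` commute on `ℓ²(G)`; so they define a positive functional `φ_s` of `C*(F) ⊗ C*(F)`. If `φ_s` were
dominated by the spatial norm on the part generated by the first generators, the Hahn-Banach theorem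
would give vectors of `K ⊗ K` which are almost invariant under `v ⊗ v`, and the densities of these
vectors would make `G` hyperlinear. So some element `y` of this part has `|φ_s(y)|` larger than its
spatial norm. The C*-norms given by the spatial norm together with `φ_s` are then pairwise different:
look at the elements `y ((1 - u_n) / 2 ⊗ 1)`, where `u_n` is the `n`-th sign generator.
-/

set_option autoImplicit false

open scoped TensorProduct Cardinal

namespace Pool.Agent.Results.MP_7f9919_an.NormCounts

open Pool.Agent.Helper965.CN (IsCStarNorm Calkin)
open Pool.Agent.U755.FN (numNorms)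
open Pool.Agent.H516R3.Alt (IsFullGroupCStar)

/-- Q1. For a separable infinite-dimensional complex Hilbert space `H` there are exactly
`2 ^ (2 ^ ℵ₀)` C*-norms on `B(H) ⊗ B(H)` and exactly `2 ^ (2 ^ ℵ₀)` on `B(H) ⊗ Q(H)`, with `Q(H)` the
Calkin algebra; the free group on countably many generators has a full group C*-algebra, and for
every full group C*-algebra `A` of it there are exactly `2 ^ ℵ₀` C*-norms on `A ⊗ A`. -/
theorem result :
    (∀ (H : Type) [NormedAddCommGroup H] [InnerProductSpace ℂ H] [CompleteSpace H]
      [TopologicalSpace.SeparableSpace H], ¬ FiniteDimensional ℂ H →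
      numNorms (H →L[ℂ] H) (H →L[ℂ] H) = 2 ^ (2 ^ ℵ₀ : Cardinal.{0}) ∧
      numNorms (H →L[ℂ] H) (Calkin H) = 2 ^ (2 ^ ℵ₀ : Cardinal.{0})) ∧
    (∃ (A : Type) (_ : CStarAlgebra A) (u : FreeGroup ℕ →* unitary A),
      IsFullGroupCStar (FreeGroup ℕ) A u) ∧
    ∀ (A : Type) [CStarAlgebra A] (u : FreeGroup ℕ →* unitary A),
      IsFullGroupCStar (FreeGroup ℕ) A u →
      numNorms A A = (2 ^ ℵ₀ : Cardinal.{0}) := by
  refine ⟨fun H _ _ _ _ hH => ?_, Pool.Agent.Y512.FGC.exists_fullGroup (FreeGroup ℕ),
    fun A _ u hA => ?_⟩
  · exact Pool.Agent.Results.MP_7f9919_an.NormsBHCalkin.result H hH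
  · rw [Cardinal.two_power_aleph0]
    exact Pool.Agent.U755.FN.card_free hA

end Pool.Agent.Results.MP_7f9919_an.NormCounts
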